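import Mathlib

set_option autoImplicit false

namespace Pool.Agent.J4.H73.CP

open Finset

/-- The gates of a circuit at position `t`, with variables indexed by `V`: a free function of the
input, a linear combination of the values of earlier gates, the minimum of two earlier gates. -/
inductive Gate (V : Type) (t : ℕ) where
  | free (φ : (V → ℝ) → ℝ) : Gate V t
  | comb (c : Fin t → ℝ) : Gate V t
  | low (a b : Fin t) : Gate V t

variable {V : Type}

/-- The value of the gate at position `t` for the input `x`. -/
noncomputable def val (g : (t : ℕ) → Gate V t) (x : V → ℝ) (t : ℕ) : ℝ :=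
  match g t with
  | .free φ => φ x
  | .comb c => ∑ s : Fin t, c s * val g x s
  | .low a b => min (val g x a) (val g x b)
termination_by t
decreasing_by all_goals exact Fin.isLt _

/-- The gate is a minimum. -/
def Gate.IsLow {t : ℕ} : Gate V t → Prop
  | .free _ => False
  | .comb _ => False
  | .low _ _ => True

/-- The free part of a gate. -/
noncomputable def base (g : (t : ℕ) → Gate V t) (t : ℕ) (z : V → ℝ) : ℝ :=
  match g t with
  | .free φ => φ z
  | .comb _ => 0
  | .low _ _ => 0

/-- The coefficients of the linear form which agrees with the gate for the input `y`. -/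
noncomputable def coef (g : (t : ℕ) → Gate V t) (y : V → ℝ) (t : ℕ) (s : Fin t) : ℝ :=
  match g t with
  | .free _ => 0
  | .comb c => c s
  | .low a b => if val g y a ≤ val g y b then (if s = a then 1 else 0) else (if s = b then 1 else 0)

/-- The combinations have nonnegative coefficients. -/
def Nonneg (g : (t : ℕ) → Gate V t) : Prop := ∀ (t : ℕ) (c : Fin t → ℝ), g t = .comb c → ∀ s, 0 ≤ c s

lemma coef_nonneg {g : (t : ℕ) → Gate V t} (hg : Nonneg g) (y : V → ℝ) (t : ℕ) (s : Fin t) :
    0 ≤ coef g y t s := by
  unfold coef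
  split
  · exact le_rfl
  · next c h => exact hg t c h s
  · split_ifs <;> norm_num

lemma val_free {g : (t : ℕ) → Gate V t} {t : ℕ} {φ : (V → ℝ) → ℝ} (h : g t = .free φ) (x : V → ℝ) :
    val g x t = φ x := by
  rw [val]; simp only [h]

lemma val_comb {g : (t : ℕ) → Gate V t} {t : ℕ} {c : Fin t → ℝ} (h : g t = .comb c) (x : V → ℝ) :
    val g x t = ∑ s : Fin t, c s * val g x s := by
  rw [val]; simp only [h]

lemma val_low {g : (t : ℕ) → Gate V t} {t : ℕ} {a b : Fin t} (h : g t = .low a b) (x : V → ℝ) :
    val g x t = min (val g x a) (val g x b) := by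
  rw [val]; simp only [h]

lemma val_le (g : (t : ℕ) → Gate V t) (y z : V → ℝ) (t : ℕ) :
    val g z t ≤ base g t z + ∑ s : Fin t, coef g y t s * val g z s := by
  unfold base coef
  split
  · next φ h => rw [val_free h]; simp
  · next c h => rw [val_comb h]; simp
  · next a b h =>
    rw [val_low h]
    split_ifs
    · simp
    · simp

lemma val_eq (g : (t : ℕ) → Gate V t) (y : V → ℝ) (t : ℕ) :
    val g y t = base g t y + ∑ s : Fin t, coef g y t s * val g y s := by
  unfold base coef
  split
  · next φ h => rw [val_free h]; simp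
  · next c h => rw [val_comb h]; simp
  · next a b h =>
    rw [val_low h]
    split_ifs with hab
    · simp [hab]
    · simp [le_of_lt (not_le.mp hab)]

/-- The value of the gate if all minima are replaced by the choices made for the input `y`. -/
noncomputable def F (g : (t : ℕ) → Gate V t) (y : V → ℝ) (z : V → ℝ) (t : ℕ) : ℝ :=
  base g t z + ∑ s : Fin t, coef g y t s * F g y z s
termination_by t
decreasing_by all_goals exact Fin.isLt _

/-- The coefficient of the gate `r` in the gate `t` for the choices made for the input `y`. -/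
noncomputable def infl (g : (t : ℕ) → Gate V t) (y : V → ℝ) (r : ℕ) (t : ℕ) : ℝ :=
  if t = r then 1 else ∑ s : Fin t, coef g y t s * infl g y r s
termination_by t
decreasing_by all_goals exact Fin.isLt _

lemma F_eq (g : (t : ℕ) → Gate V t) (y z : V → ℝ) (t : ℕ) :
    F g y z t = base g t z + ∑ s : Fin t, coef g y t s * F g y z s := by
  rw [F]

lemma infl_self (g : (t : ℕ) → Gate V t) (y : V → ℝ) (r : ℕ) : infl g y r r = 1 := by
  rw [infl]; simp

lemma infl_ne (g : (t : ℕ) → Gate V t) (y : V → ℝ) {r t : ℕ} (h : t ≠ r) :
    infl g y r t = ∑ s : Fin t, coef g y t s * infl g y r s := by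
  rw [infl]; simp [h]

lemma infl_nonneg {g : (t : ℕ) → Gate V t} (hg : Nonneg g) (y : V → ℝ) (r t : ℕ) :
    0 ≤ infl g y r t := by
  induction t using Nat.strong_induction_on with
  | _ t ih =>
    by_cases h : t = r
    · rw [h, infl_self]; norm_num
    · rw [infl_ne g y h]
      exact Finset.sum_nonneg fun s _ => mul_nonneg (coef_nonneg hg y t s) (ih s s.2)

lemma infl_lt (g : (t : ℕ) → Gate V t) (y : V → ℝ) {r t : ℕ} (h : t < r) :
    infl g y r t = 0 := by
  induction t using Nat.strong_induction_on with
  | _ t ih =>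
    rw [infl_ne g y (Nat.ne_of_lt h)]
    exact Finset.sum_eq_zero fun s _ => by rw [ih s s.2 (lt_trans s.2 h), mul_zero]

/-- The influence of a gate which is used by another one. -/
lemma infl_step {g : (t : ℕ) → Gate V t} (hg : Nonneg g) (y : V → ℝ) {r : ℕ} (s : Fin r) (t : ℕ) :
    infl g y r t * coef g y r s ≤ infl g y s t := by
  induction t using Nat.strong_induction_on with
  | _ t ih =>
    rcases lt_trichotomy t r with h | h | h
    · rw [infl_lt g y h, zero_mul]; exact infl_nonneg hg y _ _
    · subst h
      rw [infl_self, one_mul, infl_ne g y (Nat.ne_of_gt s.2)]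
      calc coef g y t s = coef g y t s * infl g y s s := by rw [infl_self, mul_one]
        _ ≤ ∑ u : Fin t, coef g y t u * infl g y s u :=
          Finset.single_le_sum (f := fun u : Fin t => coef g y t u * infl g y s u)
            (fun u _ => mul_nonneg (coef_nonneg hg y t u) (infl_nonneg hg y _ _)) (mem_univ s)
    · rw [infl_ne g y (Nat.ne_of_gt h), infl_ne g y (Nat.ne_of_gt (lt_trans s.2 h)),
        Finset.sum_mul]
      refine Finset.sum_le_sum fun u _ => ?_
      rw [mul_assoc]
      exact mul_le_mul_of_nonneg_left (ih u u.2) (coef_nonneg hg y t u)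

lemma val_le_F {g : (t : ℕ) → Gate V t} (hg : Nonneg g) (y z : V → ℝ) (t : ℕ) :
    val g z t ≤ F g y z t := by
  induction t using Nat.strong_induction_on with
  | _ t ih =>
    rw [F_eq]
    refine (val_le g y z t).trans ?_
    gcongr with s _
    · exact coef_nonneg hg y t s
    · exact ih s s.2

lemma F_self (g : (t : ℕ) → Gate V t) (y : V → ℝ) (t : ℕ) :
    F g y y t = val g y t := by
  induction t using Nat.strong_induction_on with
  | _ t ih =>
    rw [F_eq, val_eq g y t]
    congr 1
    exact Finset.sum_congr rfl fun s _ => by rw [ih s s.2]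

/-- The rest of the expression of the gate `t` outside the gate `r`. -/
noncomputable def H (g : (t : ℕ) → Gate V t) (y : V → ℝ) (r : ℕ) (z : V → ℝ) (t : ℕ) : ℝ :=
  F g y z t - infl g y r t * F g y z r

lemma H_self (g : (t : ℕ) → Gate V t) (y : V → ℝ) (r : ℕ) (z : V → ℝ) : H g y r z r = 0 := by
  rw [H, infl_self]; ring

lemma H_ne (g : (t : ℕ) → Gate V t) (y : V → ℝ) {r t : ℕ} (h : t ≠ r) (z : V → ℝ) :
    H g y r z t = base g t z + ∑ s : Fin t, coef g y t s * H g y r z s := by
  unfold H
  rw [F_eq g y z t, infl_ne g y h, Finset.sum_mul, add_sub_assoc, ← Finset.sum_sub_distrib]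
  congr 1
  exact Finset.sum_congr rfl fun s _ => by ring

lemma val_le_H {g : (t : ℕ) → Gate V t} (hg : Nonneg g) (y z : V → ℝ) (r t : ℕ) :
    val g z t ≤ H g y r z t + infl g y r t * val g z r := by
  induction t using Nat.strong_induction_on with
  | _ t ih =>
    by_cases h : t = r
    · rw [h, H_self, infl_self]; simp
    · rw [H_ne g y h, infl_ne g y h, Finset.sum_mul, add_assoc, ← Finset.sum_add_distrib]
      refine (val_le g y z t).trans ?_
      gcongr with s _
      have := mul_le_mul_of_nonneg_left (ih s s.2) (coef_nonneg hg y t s)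
      linarith

/-- The free functions are concave on `B`. -/
def ConcFree (B : Set (V → ℝ)) (g : (t : ℕ) → Gate V t) : Prop :=
  ∀ (t : ℕ) (φ : (V → ℝ) → ℝ), g t = .free φ → ConcaveOn ℝ B φ

lemma conc_base {B : Set (V → ℝ)} (hB : Convex ℝ B) {g : (t : ℕ) → Gate V t}
    (hc : ConcFree B g) (t : ℕ) : ConcaveOn ℝ B (base g t) := by
  have h0 : ConcaveOn ℝ B (fun _ : V → ℝ => (0 : ℝ)) := concaveOn_const 0 hB
  cases h : g t with
  | free φ =>
    have : base g t = φ := by funext z; simp only [base, h]
    rw [this]; exact hc t φ h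
  | comb c =>
    have : base g t = fun _ => 0 := by funext z; simp only [base, h]
    rw [this]; exact h0
  | low a b =>
    have : base g t = fun _ => 0 := by funext z; simp only [base, h]
    rw [this]; exact h0

lemma conc_sum {B : Set (V → ℝ)} (hB : Convex ℝ B) {n : ℕ} (c : Fin n → ℝ) (hc : ∀ s, 0 ≤ c s)
    (f : Fin n → (V → ℝ) → ℝ) (hf : ∀ s, ConcaveOn ℝ B (f s)) :
    ConcaveOn ℝ B (fun z => ∑ s : Fin n, c s * f s z) := by
  classical
  have : ∀ S : Finset (Fin n), ConcaveOn ℝ B (fun z => ∑ s ∈ S, c s * f s z) := by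
    intro S
    induction S using Finset.induction_on with
    | empty => simpa using concaveOn_const (0 : ℝ) hB
    | insert a S ha ih =>
      have h1 := ((hf a).smul (hc a)).add ih
      refine h1.congr ?_
      intro z _
      simp [Finset.sum_insert ha]
  exact this univ

lemma conc_F {B : Set (V → ℝ)} (hB : Convex ℝ B) {g : (t : ℕ) → Gate V t} (hg : Nonneg g)
    (hc : ConcFree B g) (y : V → ℝ) (t : ℕ) : ConcaveOn ℝ B (fun z => F g y z t) := by
  induction t using Nat.strong_induction_on with
  | _ t ih =>
    have h1 := (conc_base hB hc t).add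
      (conc_sum hB (coef g y t) (coef_nonneg hg y t) (fun s z => F g y z s) (fun s => ih s s.2))
    refine h1.congr ?_
    intro z _
    exact (F_eq g y z t).symm

lemma conc_H {B : Set (V → ℝ)} (hB : Convex ℝ B) {g : (t : ℕ) → Gate V t} (hg : Nonneg g)
    (hc : ConcFree B g) (y : V → ℝ) (r t : ℕ) : ConcaveOn ℝ B (fun z => H g y r z t) := by
  induction t using Nat.strong_induction_on with
  | _ t ih =>
    by_cases h : t = r
    · have : (fun z => H g y r z t) = fun _ => 0 := by funext z; rw [h, H_self]
      rw [this]; exact concaveOn_const 0 hB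
    · have h1 := (conc_base hB hc t).add
        (conc_sum hB (coef g y t) (coef_nonneg hg y t) (fun s z => H g y r z s)
          (fun s => ih s s.2))
      refine h1.congr ?_
      intro z _
      exact (H_ne g y h z).symm

/-- A concave function whose second differences at `x` vanish in all directions of the axes lies
below its linearization at `x`. -/
lemma lin_bound [Fintype V] [DecidableEq V] {B : Set (V → ℝ)} {h : (V → ℝ) → ℝ}
    (hh : ConcaveOn ℝ B h) {x z : V → ℝ} (hp : ∀ v, x + Pi.single v 1 ∈ B)
    (hm : ∀ v, x - Pi.single v 1 ∈ B)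
    (hsec : ∀ v, h (x + Pi.single v 1) + h (x - Pi.single v 1) = 2 * h x) (hz : z ∈ B) :
    h z ≤ h x + ∑ v, (h (x + Pi.single v 1) - h x) * (z v - x v) := by
  classical
  set C : ℝ := ∑ v, |z v - x v| with hC
  have hC0 : 0 ≤ C := Finset.sum_nonneg fun v _ => abs_nonneg _
  have hC1 : 0 < 1 + C := by linarith
  let pt : Option V → (V → ℝ) := fun o => o.elim z
    (fun v => if 0 ≤ z v - x v then x - Pi.single v 1 else x + Pi.single v 1)
  let w : Option V → ℝ := fun o => o.elim (1 / (1 + C)) (fun v => |z v - x v| / (1 + C))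
  have hw0 : ∀ o ∈ (univ : Finset (Option V)), 0 ≤ w o := by
    intro o _
    cases o with
    | none => exact div_nonneg zero_le_one hC1.le
    | some v => exact div_nonneg (abs_nonneg _) hC1.le
  have hw1 : ∑ o : Option V, w o = 1 := by
    rw [Fintype.sum_option]
    simp only [w, Option.elim]
    rw [← Finset.sum_div, ← hC, ← add_div, div_self hC1.ne']
  have hpt : ∀ o ∈ (univ : Finset (Option V)), pt o ∈ B := by
    intro o _
    cases o with
    | none => exact hz
    | some v =>
      simp only [pt, Option.elim]
      split_ifs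
      · exact hm v
      · exact hp v
  have hJ := hh.le_map_sum hw0 hw1 hpt
  have hbar : ∑ o : Option V, w o • pt o = x := by
    funext u
    rw [Fintype.sum_option]
    simp only [w, pt, Option.elim, Pi.add_apply, Pi.smul_apply, Finset.sum_apply, smul_eq_mul]
    have h1 : ∀ v, |z v - x v| / (1 + C) *
        (if 0 ≤ z v - x v then x - Pi.single v 1 else x + Pi.single v 1 : V → ℝ) u
        = (|z v - x v| * x u - (z v - x v) * (Pi.single v 1 : V → ℝ) u) / (1 + C) := by
      intro v
      split_ifs with hv
      · rw [abs_of_nonneg hv]; simp only [Pi.sub_apply]; ring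
      · rw [abs_of_neg (not_le.mp hv)]; simp only [Pi.add_apply]; ring
    simp_rw [h1]
    rw [← Finset.sum_div, Finset.sum_sub_distrib, ← Finset.sum_mul, ← hC]
    have h2 : ∑ v, (z v - x v) * (Pi.single v 1 : V → ℝ) u = z u - x u := by
      rw [Finset.sum_eq_single u]
      · simp
      · intro v _ hv; simp [Pi.single_apply, hv.symm]
      · simp
    rw [h2]
    field_simp
    ring
  rw [hbar, Fintype.sum_option] at hJ
  simp only [w, pt, Option.elim, smul_eq_mul] at hJ
  have h3 : ∀ v, |z v - x v| / (1 + C) *
      h (if 0 ≤ z v - x v then x - Pi.single v 1 else x + Pi.single v 1)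
      = (|z v - x v| * h x - (h (x + Pi.single v 1) - h x) * (z v - x v)) / (1 + C) := by
    intro v
    have hs := hsec v
    split_ifs with hv
    · rw [abs_of_nonneg hv]
      have : h (x - Pi.single v 1) = 2 * h x - h (x + Pi.single v 1) := by linarith
      rw [this]; ring
    · rw [abs_of_neg (not_le.mp hv)]; ring
  simp_rw [h3] at hJ
  rw [← Finset.sum_div, Finset.sum_sub_distrib, ← Finset.sum_mul, ← hC] at hJ
  rw [div_mul_eq_mul_div, ← add_div, div_le_iff₀ hC1] at hJ
  linarith

end Pool.Agent.J4.H73.CP
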