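import Mathlib
import Pool.Agent.J4.H73.CP.Circ

set_option autoImplicit false
set_option linter.unusedSectionVars false
set_option linter.style.haveILetI false

namespace Pool.Agent.J4.H73.CP

open Finset

/-- The positions of the entries of the two matrices of a product. -/
abbrev Pos (I K J : Type) : Type := (I × K) ⊕ (K × J)

variable {I K J : Type}

/-- The matrices with entries in `[1, 4]`. -/
def box (V : Type) : Set (V → ℝ) := {x | ∀ v, 1 ≤ x v ∧ x v ≤ 4}

/-- The matrices with entries in `{1, 2, 3, 4}`. -/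
def Grid {V : Type} (x : V → ℝ) : Prop := ∀ v, x v = 1 ∨ x v = 2 ∨ x v = 3 ∨ x v = 4

lemma Grid.mem {V : Type} {x : V → ℝ} (h : Grid x) : x ∈ box V := by
  intro v; rcases h v with h | h | h | h <;> rw [h] <;> norm_num

lemma convex_box (V : Type) : Convex ℝ (box V) := by
  intro x hx y hy a b ha hb hab v
  have h1 := hx v
  have h2 := hy v
  simp only [Pi.add_apply, Pi.smul_apply, smul_eq_mul]
  constructor
  · nlinarith [mul_nonneg ha (sub_nonneg.mpr h1.1), mul_nonneg hb (sub_nonneg.mpr h2.1)]
  · nlinarith [mul_nonneg ha (sub_nonneg.mpr h1.2), mul_nonneg hb (sub_nonneg.mpr h2.2)]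

/-- The sum of the two entries `(i, k)` and `(k, j)`. -/
def term (x : Pos I K J → ℝ) (o : I × J) (k : K) : ℝ := x (.inl (o.1, k)) + x (.inr (k, o.2))

/-- The entry `o = (i, j)` of the min-plus product. -/
noncomputable def prod (x : Pos I K J → ℝ) (o : I × J) : ℝ := ⨅ k, term x o k

lemma prod_eq [Finite K] {x : Pos I K J → ℝ} {o : I × J} {k : K}
    (h : ∀ k', term x o k ≤ term x o k') : prod x o = term x o k := by
  haveI : Nonempty K := ⟨k⟩
  exact le_antisymm (ciInf_le (Set.finite_range _).bddBelow k) (le_ciInf h)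

/-- The position is one of the two positions of the term. -/
def Two (o : I × J) (k : K) (v : Pos I K J) : Prop := v = .inl (o.1, k) ∨ v = .inr (k, o.2)

open Classical in
/-- The special input for the term `k` of the output `o`. -/
noncomputable def xp (o : I × J) (k : K) : Pos I K J → ℝ := fun v => if Two o k v then 2 else 3

open Classical in
/-- The indicator of the two positions of the term. -/
noncomputable def ev (o : I × J) (k : K) : Pos I K J → ℝ := fun v => if Two o k v then 1 else 0

lemma two_inl {o : I × J} {k k' : K} {i : I} :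
    Two o k (.inl (i, k') : Pos I K J) ↔ i = o.1 ∧ k' = k := by
  simp [Two, Prod.ext_iff]

lemma two_inr {o : I × J} {k k' : K} {j : J} :
    Two o k (.inr (k', j) : Pos I K J) ↔ k' = k ∧ j = o.2 := by
  simp [Two, Prod.ext_iff]

/-- If two entries of the term are at most `a` and `b` and the entries of all others are large. -/
lemma prod_of_margin [Finite K] {x : Pos I K J → ℝ} {o : I × J} {k : K} (c : ℝ)
    (h1 : term x o k ≤ c) (h2 : ∀ k', k' ≠ k → c ≤ term x o k') : prod x o = term x o k := by
  refine prod_eq fun k' => ?_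
  by_cases h : k' = k
  · rw [h]
  · exact h1.trans (h2 k' h)

section

variable [Fintype I] [Fintype K] [Fintype J] [DecidableEq I] [DecidableEq K] [DecidableEq J]

lemma single_nonneg' (v w : Pos I K J) : (0 : ℝ) ≤ (Pi.single v 1 : Pos I K J → ℝ) w := by
  by_cases h : w = v
  · subst h; simp
  · simp [h]

lemma single_le_one' (v w : Pos I K J) : (Pi.single v 1 : Pos I K J → ℝ) w ≤ 1 := by
  by_cases h : w = v
  · subst h; simp
  · simp [h]

lemma term_xp (o : I × J) (k : K) : term (xp o k) o k = 4 := by
  simp only [term, xp]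
  rw [if_pos (two_inl.mpr ⟨rfl, rfl⟩), if_pos (two_inr.mpr ⟨rfl, rfl⟩)]; norm_num

lemma term_xp_ne (o : I × J) {k k' : K} (h : k' ≠ k) : term (xp o k) o k' = 6 := by
  simp only [term, xp]
  rw [if_neg (fun h' => h (two_inl.mp h').2), if_neg (fun h' => h (two_inr.mp h').1)]; norm_num

lemma prod_xp (o : I × J) (k : K) : prod (xp o k) o = 4 := by
  rw [prod_of_margin 4 (term_xp o k).le, term_xp]
  intro k' hk'; rw [term_xp_ne o hk']; norm_num

lemma single_term (o : I × J) (k : K) (v : Pos I K J) :
    (Pi.single v 1 : Pos I K J → ℝ) (.inl (o.1, k)) + (Pi.single v 1 : Pos I K J → ℝ) (.inr (k, o.2))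
      = ev o k v := by
  classical
  rcases v with ⟨i, k'⟩ | ⟨k', j⟩
  · simp only [ev]
    by_cases h : i = o.1 ∧ k' = k
    · rw [if_pos (two_inl.mpr h), h.1, h.2]; simp
    · rw [if_neg (fun h' => h (two_inl.mp h'))]
      have : ((.inl (o.1, k) : Pos I K J)) ≠ .inl (i, k') := by
        intro h'; simp only [Sum.inl.injEq, Prod.mk.injEq] at h'; exact h ⟨h'.1.symm, h'.2.symm⟩
      simp [this]
  · simp only [ev]
    by_cases h : k' = k ∧ j = o.2
    · rw [if_pos (two_inr.mpr h), h.1, h.2]; simp
    · rw [if_neg (fun h' => h (two_inr.mp h'))]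
      have : ((.inr (k, o.2) : Pos I K J)) ≠ .inr (k', j) := by
        intro h'; simp only [Sum.inr.injEq, Prod.mk.injEq] at h'; exact h ⟨h'.1.symm, h'.2.symm⟩
      simp [this]

lemma term_add (x : Pos I K J → ℝ) (o : I × J) (k : K) (v : Pos I K J) :
    term (x + Pi.single v 1) o k = term x o k + ev o k v := by
  rw [← single_term o k v]; simp only [term, Pi.add_apply]; ring

lemma term_sub (x : Pos I K J → ℝ) (o : I × J) (k : K) (v : Pos I K J) :
    term (x - Pi.single v 1) o k = term x o k - ev o k v := by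
  rw [← single_term o k v]; simp only [term, Pi.sub_apply]; ring

lemma ev_nonneg (o : I × J) (k : K) (v : Pos I K J) : 0 ≤ ev o k v := by
  simp only [ev]; split_ifs <;> norm_num

lemma ev_le_one (o : I × J) (k : K) (v : Pos I K J) : ev o k v ≤ 1 := by
  simp only [ev]; split_ifs <;> norm_num

lemma prod_xp_add (o : I × J) (k : K) (v : Pos I K J) :
    prod (xp o k + Pi.single v 1) o = 4 + ev o k v := by
  rw [prod_of_margin 6, term_add, term_xp]
  · rw [term_add, term_xp]; linarith [ev_le_one o k v]
  · intro k' hk'; rw [term_add, term_xp_ne o hk']; linarith [ev_nonneg o k' v]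

lemma prod_xp_sub (o : I × J) (k : K) (v : Pos I K J) :
    prod (xp o k - Pi.single v 1) o = 4 - ev o k v := by
  rw [prod_of_margin 4, term_sub, term_xp]
  · rw [term_sub, term_xp]; linarith [ev_nonneg o k v]
  · intro k' hk'; rw [term_sub, term_xp_ne o hk']; linarith [ev_le_one o k' v]

lemma grid_xp (o : I × J) (k : K) : Grid (xp o k) := by
  intro v; simp only [xp]; split_ifs <;> norm_num

lemma grid_xp_add (o : I × J) (k : K) (v : Pos I K J) : Grid (xp o k + Pi.single v 1) := by
  intro w
  simp only [Pi.add_apply, xp]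
  by_cases h : w = v
  · subst h; simp only [Pi.single_eq_same]; split_ifs <;> norm_num
  · simp only [Pi.single_eq_of_ne h]; split_ifs <;> norm_num

lemma grid_xp_sub (o : I × J) (k : K) (v : Pos I K J) : Grid (xp o k - Pi.single v 1) := by
  intro w
  simp only [Pi.sub_apply, xp]
  by_cases h : w = v
  · subst h; simp only [Pi.single_eq_same]; split_ifs <;> norm_num
  · simp only [Pi.single_eq_of_ne h]; split_ifs <;> norm_num

lemma conc_mid {V : Type} [DecidableEq V] {B : Set (V → ℝ)} {h : (V → ℝ) → ℝ}
    (hh : ConcaveOn ℝ B h) {x : V → ℝ} {v : V} (hp : x + Pi.single v 1 ∈ B)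
    (hm : x - Pi.single v 1 ∈ B) :
    h (x + Pi.single v 1) + h (x - Pi.single v 1) ≤ 2 * h x := by
  have h1 := hh.2 hp hm (by norm_num : (0 : ℝ) ≤ 1 / 2) (by norm_num : (0 : ℝ) ≤ 1 / 2)
    (by norm_num)
  have h2 : (1 / 2 : ℝ) • (x + Pi.single v 1) + (1 / 2 : ℝ) • (x - Pi.single v 1) = x := by
    funext w
    simp only [Pi.add_apply, Pi.smul_apply, Pi.sub_apply, smul_eq_mul]; ring
  rw [h2] at h1
  simp only [smul_eq_mul] at h1
  linarith

/-- A circuit with nonnegative combinations and concave free functions, which computes, up to a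
constant, the entries of the min-plus product in `P` for all matrices with entries in
`{1, 2, 3, 4}`. -/
structure Good (g : (t : ℕ) → Gate (Pos I K J) t) (P : Set (I × J)) (out : I × J → ℕ) (C : ℝ) :
    Prop where
  nonneg : Nonneg g
  conc : ConcFree (box (Pos I K J)) g
  correct : ∀ x : Pos I K J → ℝ, Grid x → ∀ o ∈ P, val g x (out o) = prod x o + C

variable {g : (t : ℕ) → Gate (Pos I K J) t} {P : Set (I × J)} {out : I × J → ℕ} {C : ℝ}

/-- The gate `r` is used in the output `o` for the choices of the special input. -/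
def Reach (g : (t : ℕ) → Gate (Pos I K J) t) (out : I × J → ℕ) (o : I × J) (k : K) (r : ℕ) : Prop :=
  0 < infl g (xp o k) r (out o)

/-- The gradient of the gate `r` at the special input, for the choices of this input. -/
noncomputable def grad (g : (t : ℕ) → Gate (Pos I K J) t) (o : I × J) (k : K) (r : ℕ)
    (v : Pos I K J) : ℝ :=
  F g (xp o k) (xp o k + Pi.single v 1) r - F g (xp o k) (xp o k) r

/-- The linearization of the gate at the special input. -/
noncomputable def lin (g : (t : ℕ) → Gate (Pos I K J) t) (o : I × J) (k : K) (r : ℕ)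
    (z : Pos I K J → ℝ) : ℝ :=
  F g (xp o k) (xp o k) r + ∑ v, grad g o k r v * (z v - xp o k v)

lemma Good.out_xp (hG : Good g P out C) {o : I × J} (ho : o ∈ P) (k : K) :
    F g (xp o k) (xp o k) (out o) = 4 + C := by
  rw [F_self, hG.correct _ (grid_xp o k) o ho, prod_xp]

lemma Good.out_both (hG : Good g P out C) {o : I × J} (ho : o ∈ P) (k : K) (v : Pos I K J) :
    F g (xp o k) (xp o k + Pi.single v 1) (out o) = 4 + ev o k v + C ∧
      F g (xp o k) (xp o k - Pi.single v 1) (out o) = 4 - ev o k v + C := by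
  have h1 := val_le_F hG.nonneg (xp o k) (xp o k + Pi.single v 1) (out o)
  have h2 := val_le_F hG.nonneg (xp o k) (xp o k - Pi.single v 1) (out o)
  rw [hG.correct _ (grid_xp_add o k v) o ho, prod_xp_add] at h1
  rw [hG.correct _ (grid_xp_sub o k v) o ho, prod_xp_sub] at h2
  have h3 := conc_mid (conc_F (convex_box _) hG.nonneg hG.conc (xp o k) (out o))
    (grid_xp_add o k v).mem (grid_xp_sub o k v).mem
  rw [hG.out_xp ho k] at h3
  constructor <;> linarith

lemma F_split (g : (t : ℕ) → Gate (Pos I K J) t) (y z : Pos I K J → ℝ) (r t : ℕ) :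
    F g y z t = H g y r z t + infl g y r t * F g y z r := by
  unfold H; ring

lemma Good.sec_zero (hG : Good g P out C) {o : I × J} (ho : o ∈ P) {k : K} {r : ℕ}
    (hr : Reach g out o k r) (v : Pos I K J) :
    F g (xp o k) (xp o k + Pi.single v 1) r + F g (xp o k) (xp o k - Pi.single v 1) r
      = 2 * F g (xp o k) (xp o k) r ∧
    H g (xp o k) r (xp o k + Pi.single v 1) (out o) + H g (xp o k) r (xp o k - Pi.single v 1) (out o)
      = 2 * H g (xp o k) r (xp o k) (out o) := by
  have h1 := hG.out_both ho k v
  have h0 := hG.out_xp ho k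
  have h2 := conc_mid (conc_F (convex_box _) hG.nonneg hG.conc (xp o k) r)
    (grid_xp_add o k v).mem (grid_xp_sub o k v).mem
  have h3 := conc_mid (conc_H (convex_box _) hG.nonneg hG.conc (xp o k) r (out o))
    (grid_xp_add o k v).mem (grid_xp_sub o k v).mem
  have e1 := h1.1
  have e2 := h1.2
  rw [F_split g _ _ r] at e1 e2 h0
  unfold Reach at hr
  set ρ := infl g (xp o k) r (out o)
  set a := F g (xp o k) (xp o k + Pi.single v 1) r
  set b := F g (xp o k) (xp o k - Pi.single v 1) r
  set c := F g (xp o k) (xp o k) r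
  have h4 : ρ * (2 * c - (a + b)) ≤ 0 := by nlinarith
  have h5 : 2 * c - (a + b) ≤ 0 := by
    by_contra hcon
    push Not at hcon
    have := mul_pos hr hcon
    linarith
  have h6 : a + b = 2 * c := by linarith
  refine ⟨h6, ?_⟩
  have h7 : ρ * (a + b) = ρ * (2 * c) := by rw [h6]
  nlinarith

lemma Good.F_le_lin (hG : Good g P out C) {o : I × J} (ho : o ∈ P) {k : K} {r : ℕ}
    (hr : Reach g out o k r) {z : Pos I K J → ℝ} (hz : z ∈ box (Pos I K J)) :
    F g (xp o k) z r ≤ lin g o k r z := by
  have := lin_bound (conc_F (convex_box _) hG.nonneg hG.conc (xp o k) r) (x := xp o k) (z := z)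
    (fun v => (grid_xp_add o k v).mem) (fun v => (grid_xp_sub o k v).mem)
    (fun v => (hG.sec_zero ho hr v).1) hz
  exact this

lemma term_ev (z : Pos I K J → ℝ) (o : I × J) (k : K) : ∑ v, ev o k v * z v = term z o k := by
  classical
  rw [Fintype.sum_sum_type, term]
  congr 1
  · rw [Finset.sum_eq_single (o.1, k)]
    · simp only [ev]; rw [if_pos (two_inl.mpr ⟨rfl, rfl⟩), one_mul]
    · rintro ⟨i, k'⟩ _ h
      simp only [ev]
      rw [if_neg, zero_mul]
      intro h'
      have := two_inl.mp h'
      exact h (Prod.ext this.1 this.2)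
    · simp
  · rw [Finset.sum_eq_single (k, o.2)]
    · simp only [ev]; rw [if_pos (two_inr.mpr ⟨rfl, rfl⟩), one_mul]
    · rintro ⟨k', j⟩ _ h
      simp only [ev]
      rw [if_neg, zero_mul]
      intro h'
      have := two_inr.mp h'
      exact h (Prod.ext this.1 this.2)
    · simp

/-- The exchange inequality. -/
lemma Good.exchange (hG : Good g P out C) {o o' : I × J} (ho : o ∈ P) (ho' : o' ∈ P) {k k' : K}
    {r : ℕ} (hr : Reach g out o k r) (hr' : Reach g out o' k' r) {z : Pos I K J → ℝ}
    (hz : Grid z) :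
    prod z o ≤ term z o k + infl g (xp o k) r (out o) * (lin g o' k' r z - lin g o k r z) := by
  have h1 : prod z o + C ≤ H g (xp o k) r z (out o) + infl g (xp o k) r (out o) * val g z r := by
    rw [← hG.correct z hz o ho]
    exact val_le_H hG.nonneg _ _ _ _
  have h2 : val g z r ≤ lin g o' k' r z :=
    (val_le_F hG.nonneg _ _ _).trans (hG.F_le_lin ho' hr' hz.mem)
  have h3 := lin_bound (conc_H (convex_box _) hG.nonneg hG.conc (xp o k) r (out o)) (x := xp o k)
    (z := z) (fun v => (grid_xp_add o k v).mem) (fun v => (grid_xp_sub o k v).mem)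
    (fun v => (hG.sec_zero ho hr v).2) hz.mem
  have hρ : 0 ≤ infl g (xp o k) r (out o) := le_of_lt hr
  have h4 : H g (xp o k) r (xp o k) (out o) +
      ∑ v, (H g (xp o k) r (xp o k + Pi.single v 1) (out o) - H g (xp o k) r (xp o k) (out o)) *
        (z v - xp o k v) = term z o k + C - infl g (xp o k) r (out o) * lin g o k r z := by
    have h5 : ∀ v, (H g (xp o k) r (xp o k + Pi.single v 1) (out o) -
        H g (xp o k) r (xp o k) (out o)) * (z v - xp o k v)
        = ev o k v * z v - ev o k v * xp o k v -
          infl g (xp o k) r (out o) * (grad g o k r v * (z v - xp o k v)) := by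
      intro v
      have e1 := (hG.out_both ho k v).1
      have e0 := hG.out_xp ho k
      rw [F_split g _ _ r] at e1 e0
      have : H g (xp o k) r (xp o k + Pi.single v 1) (out o) - H g (xp o k) r (xp o k) (out o)
          = ev o k v - infl g (xp o k) r (out o) * grad g o k r v := by
        unfold grad; linarith
      rw [this]; ring
    simp_rw [h5]
    rw [Finset.sum_sub_distrib, Finset.sum_sub_distrib, ← Finset.mul_sum, term_ev, term_ev,
      term_xp]
    have e0 := hG.out_xp ho k
    rw [F_split g _ _ r] at e0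
    unfold lin
    linarith
  rw [h4] at h3
  have h6 := mul_le_mul_of_nonneg_left h2 hρ
  linarith

end

end Pool.Agent.J4.H73.CP
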