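import Mathlib
import Pool.Agent.J4.H73.CP.Ex

set_option autoImplicit false
set_option linter.unusedSectionVars false
set_option linter.style.haveILetI false

namespace Pool.Agent.J4.H73.CP

open Finset

variable {I K J : Type}
variable [Fintype I] [Fintype K] [Fintype J] [DecidableEq I] [DecidableEq K] [DecidableEq J]
variable {g : (t : ℕ) → Gate (Pos I K J) t} {P : Set (I × J)} {out : I × J → ℕ} {C : ℝ}

lemma lin_add (g : (t : ℕ) → Gate (Pos I K J) t) (o : I × J) (k : K) (r : ℕ)
    (z : Pos I K J → ℝ) (v : Pos I K J) :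
    lin g o k r (z + Pi.single v 1) = lin g o k r z + grad g o k r v := by
  unfold lin
  have : ∀ w, grad g o k r w * ((z + Pi.single v 1 : Pos I K J → ℝ) w - xp o k w)
      = grad g o k r w * (z w - xp o k w) + grad g o k r w * (Pi.single v 1 : Pos I K J → ℝ) w := by
    intro w; simp only [Pi.add_apply]; ring
  simp_rw [this]
  rw [Finset.sum_add_distrib]
  have h2 : ∑ w, grad g o k r w * (Pi.single v 1 : Pos I K J → ℝ) w = grad g o k r v := by
    rw [Finset.sum_eq_single v]
    · simp
    · intro w _ hw; simp [hw]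
    · simp
  rw [h2]; ring

/-- At an input at which both terms are optimal, the linearizations agree. -/
lemma Good.tie_eq (hG : Good g P out C) {o o' : I × J} (ho : o ∈ P) (ho' : o' ∈ P) {k k' : K}
    {r : ℕ} (hr : Reach g out o k r) (hr' : Reach g out o' k' r) {z : Pos I K J → ℝ}
    (hz : Grid z) (h1 : prod z o = term z o k) (h2 : prod z o' = term z o' k') :
    lin g o' k' r z = lin g o k r z := by
  have e1 := hG.exchange ho ho' hr hr' hz
  have e2 := hG.exchange ho' ho hr' hr hz
  rw [h1] at e1
  rw [h2] at e2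
  unfold Reach at hr hr'
  have f1 : 0 ≤ infl g (xp o k) r (out o) * (lin g o' k' r z - lin g o k r z) := by linarith
  have f2 : 0 ≤ infl g (xp o' k') r (out o') * (lin g o k r z - lin g o' k' r z) := by linarith
  have g1 := (mul_nonneg_iff_of_pos_left hr).mp f1
  have g2 := (mul_nonneg_iff_of_pos_left hr').mp f2
  linarith

open Classical in
/-- The input which is `1` on `W` and `3` elsewhere. -/
noncomputable def zp (W : Pos I K J → Prop) : Pos I K J → ℝ := fun v => if W v then 1 else 3

lemma grid_zp (W : Pos I K J → Prop) : Grid (zp W) := by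
  intro v; simp only [zp]; split_ifs <;> norm_num

lemma grid_zp_add (W : Pos I K J → Prop) (v : Pos I K J) : Grid (zp W + Pi.single v 1) := by
  intro w
  simp only [Pi.add_apply, zp]
  by_cases h : w = v
  · subst h; simp only [Pi.single_eq_same]; split_ifs <;> norm_num
  · simp only [Pi.single_eq_of_ne h]; split_ifs <;> norm_num

lemma grid_zp_add2 (W : Pos I K J → Prop) {a b : Pos I K J} (hab : a ≠ b) :
    Grid (zp W + Pi.single a 1 + Pi.single b 1) := by
  intro w
  simp only [Pi.add_apply, zp]
  by_cases h : w = a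
  · subst h
    simp only [Pi.single_eq_same, Pi.single_eq_of_ne hab]; split_ifs <;> norm_num
  · by_cases h' : w = b
    · subst h'
      simp only [Pi.single_eq_same, Pi.single_eq_of_ne h]; split_ifs <;> norm_num
    · simp only [Pi.single_eq_of_ne h, Pi.single_eq_of_ne h']; split_ifs <;> norm_num

lemma term_zp_le (W : Pos I K J → Prop) {o : I × J} {k : K}
    (h : W (.inl (o.1, k)) ∨ W (.inr (k, o.2))) : term (zp W) o k ≤ 4 := by
  simp only [term, zp]
  rcases h with h | h
  · rw [if_pos h]; split_ifs <;> norm_num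
  · rw [if_pos h]; split_ifs <;> norm_num

lemma term_zp_eq (W : Pos I K J → Prop) {o : I × J} {k : K}
    (h : W (.inl (o.1, k))) (h' : W (.inr (k, o.2))) : term (zp W) o k = 2 := by
  simp only [term, zp]
  rw [if_pos h, if_pos h']; norm_num

lemma term_zp_ne (W : Pos I K J → Prop) {o : I × J} {k : K}
    (h : ¬ W (.inl (o.1, k))) (h' : ¬ W (.inr (k, o.2))) : term (zp W) o k = 6 := by
  simp only [term, zp]
  rw [if_neg h, if_neg h']; norm_num

lemma low_point (W : Pos I K J → Prop) {o : I × J} {k : K}
    (h : W (.inl (o.1, k)) ∨ W (.inr (k, o.2)))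
    (h' : ∀ k', k' ≠ k → ¬ W (.inl (o.1, k')) ∧ ¬ W (.inr (k', o.2))) :
    prod (zp W) o = term (zp W) o k ∧
      ∀ v, prod (zp W + Pi.single v 1) o = term (zp W + Pi.single v 1) o k := by
  have h4 := term_zp_le W h
  constructor
  · refine prod_of_margin 6 (by linarith) fun k' hk' => ?_
    rw [term_zp_ne W (h' k' hk').1 (h' k' hk').2]
  · intro v
    refine prod_of_margin 6 ?_ fun k' hk' => ?_
    · rw [term_add]; linarith [ev_le_one o k v]
    · rw [term_add, term_zp_ne W (h' k' hk').1 (h' k' hk').2]; linarith [ev_nonneg o k' v]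

/-- Gates that are used in two different outputs have the same gradient for both. -/
lemma Good.cross (hG : Good g P out C) {o o' : I × J} (ho : o ∈ P) (ho' : o' ∈ P) (hne : o ≠ o')
    {k l : K} {r : ℕ} (hr : Reach g out o k r) (hr' : Reach g out o' l r) :
    grad g o k r = grad g o' l r := by
  classical
  have key : ∃ W : Pos I K J → Prop,
      (W (.inl (o.1, k)) ∨ W (.inr (k, o.2))) ∧
      (∀ k', k' ≠ k → ¬ W (.inl (o.1, k')) ∧ ¬ W (.inr (k', o.2))) ∧
      (W (.inl (o'.1, l)) ∨ W (.inr (l, o'.2))) ∧
      (∀ k', k' ≠ l → ¬ W (.inl (o'.1, k')) ∧ ¬ W (.inr (k', o'.2))) := by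
    by_cases h2 : o.2 = o'.2
    · have h1 : o.1 ≠ o'.1 := fun h1 => hne (Prod.ext h1 h2)
      refine ⟨fun v => v = .inl (o.1, k) ∨ v = .inl (o'.1, l), Or.inl (Or.inl rfl), ?_,
        Or.inl (Or.inr rfl), ?_⟩
      · intro k' hk'
        simp [h1, hk']
      · intro k' hk'
        simp [h1.symm, hk']
    · refine ⟨fun v => v = .inr (k, o.2) ∨ v = .inr (l, o'.2), Or.inr (Or.inl rfl), ?_,
        Or.inr (Or.inr rfl), ?_⟩
      · intro k' hk'
        simp [h2, hk']
      · intro k' hk'
        simp [Ne.symm h2, hk']
  obtain ⟨W, w1, w2, w3, w4⟩ := key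
  have p1 := low_point W w1 w2
  have p2 := low_point W w3 w4
  have e0 := hG.tie_eq ho ho' hr hr' (grid_zp W) p1.1 p2.1
  funext v
  have e1 := hG.tie_eq ho ho' hr hr' (grid_zp_add W v) (p1.2 v) (p2.2 v)
  rw [lin_add, lin_add, e0] at e1
  linarith

lemma two_disjoint {o : I × J} {k k' : K} (h : k ≠ k') {v : Pos I K J} (h1 : Two o k v) :
    ¬ Two o k' v := by
  intro h2
  rcases v with ⟨i, l⟩ | ⟨l, j⟩
  · exact h ((two_inl.mp h1).2.symm.trans (two_inl.mp h2).2)
  · exact h ((two_inr.mp h1).1.symm.trans (two_inr.mp h2).1)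

lemma ev_of {o : I × J} {k : K} {v : Pos I K J} (h : Two o k v) : ev o k v = 1 := by
  simp only [ev]; rw [if_pos h]

lemma ev_of_not {o : I × J} {k : K} {v : Pos I K J} (h : ¬ Two o k v) : ev o k v = 0 := by
  simp only [ev]; rw [if_neg h]

/-- The differences of the gradients for two terms of the same output. -/
lemma Good.same (hG : Good g P out C) {o : I × J} (ho : o ∈ P) {k k' : K} (hne : k ≠ k')
    {r : ℕ} (hr : Reach g out o k r) (hr' : Reach g out o k' r) :
    (∀ v, ¬ Two o k v → ¬ Two o k' v → grad g o k' r v - grad g o k r v = 0) ∧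
    (∀ a b, Two o k a → Two o k' b →
      (grad g o k' r a - grad g o k r a) + (grad g o k' r b - grad g o k r b) = 0) := by
  classical
  set W : Pos I K J → Prop := fun v => Two o k v ∨ Two o k' v with hW
  have wk1 : W (.inl (o.1, k)) := Or.inl (two_inl.mpr ⟨rfl, rfl⟩)
  have wk2 : W (.inr (k, o.2)) := Or.inl (two_inr.mpr ⟨rfl, rfl⟩)
  have wk1' : W (.inl (o.1, k')) := Or.inr (two_inl.mpr ⟨rfl, rfl⟩)
  have wk2' : W (.inr (k', o.2)) := Or.inr (two_inr.mpr ⟨rfl, rfl⟩)
  have tk := term_zp_eq W wk1 wk2
  have tk' := term_zp_eq W wk1' wk2'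
  have tl : ∀ l, l ≠ k → l ≠ k' → term (zp W) o l = 6 := by
    intro l hl hl'
    refine term_zp_ne W ?_ ?_
    · rintro (h | h)
      · exact hl (two_inl.mp h).2
      · exact hl' (two_inl.mp h).2
    · rintro (h | h)
      · exact hl (two_inr.mp h).1
      · exact hl' (two_inr.mp h).1
  -- ties
  have tie : ∀ (z : Pos I K J → ℝ), (term z o k = term z o k') → term z o k ≤ 6 →
      (∀ l, l ≠ k → l ≠ k' → 6 ≤ term z o l) → prod z o = term z o k ∧ prod z o = term z o k' := by
    intro z h1 h2 h3
    have : prod z o = term z o k := by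
      refine prod_eq fun l => ?_
      by_cases hl : l = k
      · rw [hl]
      · by_cases hl' : l = k'
        · rw [hl', h1]
        · exact h2.trans (h3 l hl hl')
    exact ⟨this, this.trans h1⟩
  have t0 := tie (zp W) (by rw [tk, tk']) (by rw [tk]; norm_num)
    (fun l hl hl' => (tl l hl hl').ge)
  have e0 := hG.tie_eq ho ho hr hr' (grid_zp W) t0.1 t0.2
  constructor
  · intro v hv hv'
    have t1 := tie (zp W + Pi.single v 1) (by
      rw [term_add, term_add, tk, tk', ev_of_not hv, ev_of_not hv'])
      (by rw [term_add, tk]; linarith [ev_le_one o k v])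
      (fun l hl hl' => by rw [term_add, tl l hl hl']; linarith [ev_nonneg o l v])
    have e1 := hG.tie_eq ho ho hr hr' (grid_zp_add W v) t1.1 t1.2
    rw [lin_add, lin_add, e0] at e1
    linarith
  · intro a b ha hb
    have hab : a ≠ b := by
      intro h; subst h; exact two_disjoint hne ha hb
    have t1 := tie (zp W + Pi.single a 1 + Pi.single b 1) (by
      rw [term_add, term_add, term_add, term_add, tk, tk', ev_of ha, ev_of hb,
        ev_of_not (two_disjoint hne ha), ev_of_not (two_disjoint hne.symm hb)]; norm_num)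
      (by rw [term_add, term_add, tk]; linarith [ev_le_one o k a, ev_le_one o k b])
      (fun l hl hl' => by
        rw [term_add, term_add, tl l hl hl']
        linarith [ev_nonneg o l a, ev_nonneg o l b])
    have e1 := hG.tie_eq ho ho hr hr' (grid_zp_add2 W hab) t1.1 t1.2
    rw [lin_add, lin_add, lin_add, lin_add, e0] at e1
    linarith

/-- A set of positions which does not contain the four positions of two terms of an output
in `P`. -/
def Allowed (P : Set (I × J)) (S : Set (Pos I K J)) : Prop :=
  ∀ o ∈ P, ∀ k k' : K, k ≠ k' →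
    ¬ (Sum.inl (o.1, k) ∈ S ∧ Sum.inr (k, o.2) ∈ S ∧ Sum.inl (o.1, k') ∈ S ∧ Sum.inr (k', o.2) ∈ S)

/-- Every free function depends only on the entries in an allowed set. -/
def LocalFree (P : Set (I × J)) (g : (t : ℕ) → Gate (Pos I K J) t) : Prop :=
  ∀ (t : ℕ) (φ : (Pos I K J → ℝ) → ℝ), g t = .free φ → ∃ S, Allowed P S ∧ DependsOn φ S

lemma F_free {g : (t : ℕ) → Gate (Pos I K J) t} {t : ℕ} {φ : (Pos I K J → ℝ) → ℝ}
    (h : g t = .free φ) (y z : Pos I K J → ℝ) : F g y z t = φ z := by
  rw [F_eq]; simp [base, coef, h]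

lemma Good.free_grad (hG : Good g P out C) (hL : LocalFree P g) {o : I × J} (ho : o ∈ P) {k k' : K}
    {r : ℕ} {φ : (Pos I K J → ℝ) → ℝ} (hφ : g r = .free φ)
    (hr : Reach g out o k r) (hr' : Reach g out o k' r) : grad g o k r = grad g o k' r := by
  by_cases hne : k = k'
  · rw [hne]
  obtain ⟨S, hS, hdep⟩ := hL r φ hφ
  have hgrad : ∀ (l : K) (v : Pos I K J), v ∉ S → grad g o l r v = 0 := by
    intro l v hv
    unfold grad
    rw [F_free hφ, F_free hφ]
    have : φ (xp o l + Pi.single v 1) = φ (xp o l) := by
      refine hdep fun w hw => ?_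
      have : w ≠ v := fun h => hv (h ▸ hw)
      simp [this]
    rw [this, sub_self]
  obtain ⟨h1, h2⟩ := hG.same ho hne hr hr'
  have hex : ∃ v, (Two o k v ∨ Two o k' v) ∧ v ∉ S := by
    have h := hS o ho k k' hne
    by_contra hcon
    push Not at hcon
    exact h ⟨hcon _ (Or.inl (two_inl.mpr ⟨rfl, rfl⟩)), hcon _ (Or.inl (two_inr.mpr ⟨rfl, rfl⟩)),
      hcon _ (Or.inr (two_inl.mpr ⟨rfl, rfl⟩)), hcon _ (Or.inr (two_inr.mpr ⟨rfl, rfl⟩))⟩
  obtain ⟨v, hv, hvS⟩ := hex
  have hv0 : grad g o k' r v - grad g o k r v = 0 := by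
    rw [hgrad k v hvS, hgrad k' v hvS, sub_self]
  have tw : Two o k (.inl (o.1, k) : Pos I K J) := two_inl.mpr ⟨rfl, rfl⟩
  have tw' : Two o k' (.inl (o.1, k') : Pos I K J) := two_inl.mpr ⟨rfl, rfl⟩
  have hall : ∀ w, (Two o k w ∨ Two o k' w) → grad g o k' r w - grad g o k r w = 0 := by
    rcases hv with hv | hv
    · have hb : ∀ b, Two o k' b → grad g o k' r b - grad g o k r b = 0 := by
        intro b hb
        have := h2 v b hv hb
        linarith
      rintro w (hw | hw)
      · have := h2 w _ hw tw'
        have := hb _ tw'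
        linarith
      · exact hb w hw
    · have ha : ∀ a, Two o k a → grad g o k' r a - grad g o k r a = 0 := by
        intro a ha
        have := h2 a v ha hv
        linarith
      rintro w (hw | hw)
      · exact ha w hw
      · have := h2 _ w tw hw
        have := ha _ tw
        linarith
  funext w
  by_cases hw : Two o k w ∨ Two o k' w
  · have := hall w hw; linarith
  · push Not at hw
    have := h1 w hw.1 hw.2; linarith

lemma grad_eq_sum (g : (t : ℕ) → Gate (Pos I K J) t) (o : I × J) (k : K) (t : ℕ)
    (hb : ∀ z, base g t z = 0) :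
    grad g o k t = ∑ s : Fin t, coef g (xp o k) t s • grad g o k s := by
  funext v
  simp only [Finset.sum_apply, Pi.smul_apply, smul_eq_mul]
  unfold grad
  rw [F_eq g _ _ t, F_eq g _ (xp o k) t, hb, hb, zero_add, zero_add, ← Finset.sum_sub_distrib]
  exact Finset.sum_congr rfl fun s _ => by ring

lemma Reach.step (hg : Nonneg g) {o : I × J} {k : K} {t : ℕ} (s : Fin t)
    (hr : Reach g out o k t) (hs : 0 < coef g (xp o k) t s) : Reach g out o k s :=
  lt_of_lt_of_le (mul_pos hr hs) (infl_step hg (xp o k) s (out o))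

/-- The gate is a minimum which is used in two ways for the output `o`. -/
def NT (g : (t : ℕ) → Gate (Pos I K J) t) (out : I × J → ℕ) (o : I × J) (r : ℕ) : Prop :=
  ∃ (a b : Fin r), g r = .low a b ∧ ∃ k k' : K, Reach g out o k r ∧ Reach g out o k' r ∧
    val g (xp o k) a ≤ val g (xp o k) b ∧ ¬ val g (xp o k') a ≤ val g (xp o k') b ∧
    grad g o k r ≠ grad g o k' r

/-- The span of the differences of gradients for the output `o`. -/
noncomputable def U (g : (t : ℕ) → Gate (Pos I K J) t) (out : I × J → ℕ) (o : I × J) (t : ℕ) :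
    Submodule ℝ (Pos I K J → ℝ) :=
  Submodule.span ℝ {w | ∃ r < t, ∃ k k' : K, Reach g out o k r ∧ Reach g out o k' r ∧
    w = grad g o k r - grad g o k' r}

lemma mem_U {o : I × J} {t r : ℕ} (hrt : r < t) {k k' : K} (h : Reach g out o k r)
    (h' : Reach g out o k' r) : grad g o k r - grad g o k' r ∈ U g out o t :=
  Submodule.subset_span ⟨r, hrt, k, k', h, h', rfl⟩

lemma U_succ_le {o : I × J} {t : ℕ} (M : Submodule ℝ (Pos I K J → ℝ)) (hM : U g out o t ≤ M)
    (h : ∀ k k' : K, Reach g out o k t → Reach g out o k' t →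
      grad g o k t - grad g o k' t ∈ M) : U g out o (t + 1) ≤ M := by
  refine Submodule.span_le.mpr ?_
  rintro w ⟨r, hr, k, k', hk, hk', rfl⟩
  rcases Nat.lt_succ_iff_lt_or_eq.mp hr with h1 | h1
  · exact hM (mem_U h1 hk hk')
  · subst h1; exact h k k' hk hk'

/-- The gradient of a minimum is the gradient of the chosen gate. -/
lemma grad_low {t : ℕ} {a b : Fin t} (h : g t = .low a b) (o : I × J) (k : K) :
    grad g o k t = if val g (xp o k) a ≤ val g (xp o k) b then grad g o k a else grad g o k b := by
  rw [grad_eq_sum g o k t (by intro z; simp [base, h])]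
  simp only [coef, h]
  split_ifs with hc
  · rw [Finset.sum_eq_single a]
    · simp
    · intro s _ hs; simp [hs]
    · simp
  · rw [Finset.sum_eq_single b]
    · simp
    · intro s _ hs; simp [hs]
    · simp

lemma reach_low (hg : Nonneg g) {t : ℕ} {a b : Fin t} (h : g t = .low a b) {o : I × J} {k : K}
    (hr : Reach g out o k t) :
    (val g (xp o k) a ≤ val g (xp o k) b → Reach g out o k a) ∧
    (¬ val g (xp o k) a ≤ val g (xp o k) b → Reach g out o k b) := by
  constructor
  · intro hc
    refine Reach.step hg a hr ?_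
    simp [coef, h, hc]
  · intro hc
    refine Reach.step hg b hr ?_
    simp only [coef, h]
    rw [if_neg hc]; simp

open Classical in
lemma Good.finrank_U (hG : Good g P out C) (hL : LocalFree P g) {o : I × J} (ho : o ∈ P) (t : ℕ) :
    Module.finrank ℝ (U g out o t) ≤ ((range t).filter (fun r => NT g out o r)).card := by
  induction t with
  | zero =>
    have : U g out o 0 = ⊥ := by
      unfold U
      rw [Submodule.span_eq_bot]
      rintro w ⟨r, hr, _⟩
      exact absurd hr (Nat.not_lt_zero r)
    rw [this]; simp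
  | succ t ih =>
    by_cases hnt : NT g out o t
    · obtain ⟨a, b, hab, k0, k0', hr0, hr0', hc0, hc0', hne⟩ := hnt
      have hle : U g out o (t + 1) ≤
          U g out o t ⊔ Submodule.span ℝ {grad g o k0 t - grad g o k0' t} := by
        have hsub : ∀ k k' : K, Reach g out o k t → Reach g out o k' t →
            (val g (xp o k) a ≤ val g (xp o k) b ↔ val g (xp o k') a ≤ val g (xp o k') b) →
            grad g o k t - grad g o k' t ∈ U g out o t := by
          intro k k' hk hk' hiff
          rw [grad_low hab, grad_low hab]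
          by_cases hc : val g (xp o k) a ≤ val g (xp o k) b
          · rw [if_pos hc, if_pos (hiff.mp hc)]
            exact mem_U a.2 ((reach_low hG.nonneg hab hk).1 hc)
              ((reach_low hG.nonneg hab hk').1 (hiff.mp hc))
          · rw [if_neg hc, if_neg (fun h => hc (hiff.mpr h))]
            exact mem_U b.2 ((reach_low hG.nonneg hab hk).2 hc)
              ((reach_low hG.nonneg hab hk').2 (fun h => hc (hiff.mpr h)))
        have hdiff : ∀ k k' : K, Reach g out o k t → Reach g out o k' t →
            val g (xp o k) a ≤ val g (xp o k) b → ¬ val g (xp o k') a ≤ val g (xp o k') b →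
            grad g o k t - grad g o k' t ∈
              U g out o t ⊔ Submodule.span ℝ {grad g o k0 t - grad g o k0' t} := by
          intro k k' hk hk' hc hc'
          have e : grad g o k t - grad g o k' t = (grad g o k t - grad g o k0 t) +
              (grad g o k0 t - grad g o k0' t) + (grad g o k0' t - grad g o k' t) := by abel
          rw [e]
          refine Submodule.add_mem _ (Submodule.add_mem _ ?_ ?_) ?_
          · exact Submodule.mem_sup_left (hsub k k0 hk hr0 ⟨fun _ => hc0, fun _ => hc⟩)
          · exact Submodule.mem_sup_right (Submodule.mem_span_singleton_self _)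
          · exact Submodule.mem_sup_left (hsub k0' k' hr0' hk'
              ⟨fun h => absurd h hc0', fun h => absurd h hc'⟩)
        refine U_succ_le _ le_sup_left ?_
        intro k k' hk hk'
        by_cases hc : val g (xp o k) a ≤ val g (xp o k) b
        · by_cases hc' : val g (xp o k') a ≤ val g (xp o k') b
          · exact Submodule.mem_sup_left (hsub k k' hk hk' ⟨fun _ => hc', fun _ => hc⟩)
          · exact hdiff k k' hk hk' hc hc'
        · by_cases hc' : val g (xp o k') a ≤ val g (xp o k') b
          · have h := Submodule.neg_mem _ (hdiff k' k hk' hk hc' hc)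
            rwa [neg_sub] at h
          · exact Submodule.mem_sup_left (hsub k k' hk hk'
              ⟨fun h => absurd h hc, fun h => absurd h hc'⟩)
      have h1 := Submodule.finrank_mono hle
      have h2 := Submodule.finrank_add_le_finrank_add_finrank (U g out o t)
        (Submodule.span ℝ {grad g o k0 t - grad g o k0' t})
      have h3 : Module.finrank ℝ (Submodule.span ℝ {grad g o k0 t - grad g o k0' t}) = 1 :=
        finrank_span_singleton (sub_ne_zero.mpr hne)
      have hnt' : NT g out o t := ⟨a, b, hab, k0, k0', hr0, hr0', hc0, hc0', hne⟩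
      rw [Finset.range_add_one, Finset.filter_insert, if_pos hnt', Finset.card_insert_of_notMem
        (by simp)]
      omega
    · have hle : U g out o (t + 1) ≤ U g out o t := by
        refine U_succ_le _ le_rfl ?_
        intro k k' hk hk'
        cases h : g t with
        | free φ =>
          rw [hG.free_grad hL ho h hk hk', sub_self]; exact Submodule.zero_mem _
        | comb c =>
          have hb : ∀ z, base g t z = 0 := by intro z; simp [base, h]
          rw [grad_eq_sum g o k t hb, grad_eq_sum g o k' t hb]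
          have hc : ∀ l : K, coef g (xp o l) t = c := by intro l; funext s; simp [coef, h]
          rw [hc k, hc k', ← Finset.sum_sub_distrib]
          refine Submodule.sum_mem _ fun s _ => ?_
          rw [← smul_sub]
          by_cases hs : c s = 0
          · rw [hs, zero_smul]; exact Submodule.zero_mem _
          · have hpos : 0 < c s := lt_of_le_of_ne (hG.nonneg t c h s) (Ne.symm hs)
            refine Submodule.smul_mem _ _ (mem_U s.2 ?_ ?_)
            · exact Reach.step hG.nonneg s hk (by rw [hc]; exact hpos)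
            · exact Reach.step hG.nonneg s hk' (by rw [hc]; exact hpos)
        | low a b =>
          have hsame : ∀ l l' : K, Reach g out o l t → Reach g out o l' t →
              val g (xp o l) a ≤ val g (xp o l) b → ¬ val g (xp o l') a ≤ val g (xp o l') b →
              grad g o l t = grad g o l' t := by
            intro l l' hl hl' hc hc'
            by_contra hcon
            exact hnt ⟨a, b, h, l, l', hl, hl', hc, hc', hcon⟩
          by_cases hc : val g (xp o k) a ≤ val g (xp o k) b
          · by_cases hc' : val g (xp o k') a ≤ val g (xp o k') b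
            · rw [grad_low h, grad_low h, if_pos hc, if_pos hc']
              exact mem_U a.2 ((reach_low hG.nonneg h hk).1 hc)
                ((reach_low hG.nonneg h hk').1 hc')
            · rw [hsame k k' hk hk' hc hc', sub_self]; exact Submodule.zero_mem _
          · by_cases hc' : val g (xp o k') a ≤ val g (xp o k') b
            · rw [← hsame k' k hk' hk hc' hc, sub_self]; exact Submodule.zero_mem _
            · rw [grad_low h, grad_low h, if_neg hc, if_neg hc']
              exact mem_U b.2 ((reach_low hG.nonneg h hk).2 hc)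
                ((reach_low hG.nonneg h hk').2 hc')
      have h1 := Submodule.finrank_mono hle
      rw [Finset.range_add_one, Finset.filter_insert, if_neg hnt]
      exact h1.trans ih

lemma Good.grad_out (hG : Good g P out C) {o : I × J} (ho : o ∈ P) (k : K) :
    grad g o k (out o) = ev o k := by
  funext v
  unfold grad
  rw [(hG.out_both ho k v).1, hG.out_xp ho k]; ring

lemma Good.le_finrank_U (hG : Good g P out C) {o : I × J} (ho : o ∈ P) {N : ℕ} (hN : out o < N)
    [Nonempty K] : Fintype.card K - 1 ≤ Module.finrank ℝ (U g out o N) := by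
  classical
  obtain ⟨k0⟩ := ‹Nonempty K›
  let b : {k : K // k ≠ k0} → (Pos I K J → ℝ) := fun k => ev o k.1 - ev o k0
  let π : (Pos I K J → ℝ) →ₗ[ℝ] ({k : K // k ≠ k0} → ℝ) :=
    LinearMap.funLeft ℝ ℝ (fun k : {k : K // k ≠ k0} => (Sum.inl (o.1, k.1) : Pos I K J))
  have hπ : ∀ k, π (b k) = Pi.basisFun ℝ {k : K // k ≠ k0} k := by
    intro k
    funext l
    simp only [π, b, LinearMap.funLeft_apply, Pi.sub_apply, Pi.basisFun_apply]
    have h0 : ev o k0 (Sum.inl (o.1, l.1) : Pos I K J) = 0 :=
      ev_of_not fun h => l.2 (two_inl.mp h).2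
    rw [h0, sub_zero]
    by_cases hl : l = k
    · subst hl
      rw [ev_of (two_inl.mpr ⟨rfl, rfl⟩)]; simp
    · rw [ev_of_not (fun h => hl (Subtype.ext (two_inl.mp h).2))]; simp [hl]
  have hb : LinearIndependent ℝ b := by
    refine LinearIndependent.of_comp π ?_
    have : (π ∘ b) = fun k => Pi.basisFun ℝ {k : K // k ≠ k0} k := funext hπ
    rw [this]
    exact (Pi.basisFun ℝ {k : K // k ≠ k0}).linearIndependent
  have hcard : Fintype.card {k : K // k ≠ k0} = Fintype.card K - 1 := by
    rw [Fintype.card_subtype_compl, Fintype.card_subtype_eq]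
  have hreach : ∀ k, Reach g out o k (out o) := by
    intro k; unfold Reach; rw [infl_self]; norm_num
  have hle : Submodule.span ℝ (Set.range b) ≤ U g out o N := by
    refine Submodule.span_le.mpr ?_
    rintro w ⟨k, rfl⟩
    have := mem_U (g := g) (out := out) hN (hreach k.1) (hreach k0)
    rw [hG.grad_out ho, hG.grad_out ho] at this
    exact this
  have h1 := Submodule.finrank_mono hle
  rw [finrank_span_eq_card hb, hcard] at h1
  exact h1

/-- A minimum is used in two ways for at most one output. -/
lemma Good.NT_unique (hG : Good g P out C) {o o' : I × J} (ho : o ∈ P) (ho' : o' ∈ P)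
    {r : ℕ} (h : NT g out o r) (h' : NT g out o' r) : o = o' := by
  by_contra hne
  obtain ⟨a, b, hab, k, k', hk, hk', _, _, hg⟩ := h
  obtain ⟨_, _, _, l, l', hl, hl', _, _, _⟩ := h'
  exact hg ((hG.cross ho ho' hne hk hl).trans (hG.cross ho ho' hne hk' hl).symm)

open Classical in
/-- The number of minima. -/
theorem Good.count (hG : Good g P out C) (hL : LocalFree P g) (Q : Finset (I × J))
    (hQ : ∀ o ∈ Q, o ∈ P) {N : ℕ} (hN : ∀ o ∈ Q, out o < N) :
    Q.card * (Fintype.card K - 1) ≤ ((range N).filter (fun t => (g t).IsLow)).card := by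
  rcases isEmpty_or_nonempty K with hK | hK
  · simp
  have hdisj : ∀ o ∈ Q, ∀ o' ∈ Q, o ≠ o' →
      Disjoint ((range N).filter (fun r => NT g out o r))
        ((range N).filter (fun r => NT g out o' r)) := by
    intro o ho o' ho' hne
    rw [Finset.disjoint_left]
    intro r h1 h2
    exact hne (hG.NT_unique (hQ o ho) (hQ o' ho') (Finset.mem_filter.mp h1).2
      (Finset.mem_filter.mp h2).2)
  have hsub : Q.biUnion (fun o => (range N).filter (fun r => NT g out o r)) ⊆
      (range N).filter (fun t => (g t).IsLow) := by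
    intro r hr
    obtain ⟨o, _, h1⟩ := Finset.mem_biUnion.mp hr
    obtain ⟨h2, a, b, hab, _⟩ := Finset.mem_filter.mp h1
    refine Finset.mem_filter.mpr ⟨h2, ?_⟩
    rw [hab]; trivial
  calc Q.card * (Fintype.card K - 1) = ∑ o ∈ Q, (Fintype.card K - 1) := by simp
    _ ≤ ∑ o ∈ Q, ((range N).filter (fun r => NT g out o r)).card :=
      Finset.sum_le_sum fun o ho =>
        (hG.le_finrank_U (hQ o ho) (hN o ho)).trans (hG.finrank_U hL (hQ o ho) N)
    _ = (Q.biUnion (fun o => (range N).filter (fun r => NT g out o r))).card :=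
      (Finset.card_biUnion hdisj).symm
    _ ≤ _ := Finset.card_le_card hsub

end Pool.Agent.J4.H73.CP
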