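import Mathlib
import Pool.Agent.J4.H73.CP.Count

set_option autoImplicit false
set_option linter.unusedSectionVars false
set_option linter.style.haveILetI false

namespace Pool.Agent.J4.H73.CP

open Finset

/-- The length of the walk from `s` to `t` through the vertices of the list. -/
noncomputable def walkLen {U : Type} (w : U × U → ℝ) : U → List U → U → ℝ
  | s, [], t => w (s, t)
  | s, a :: l, t => w (s, a) + walkLen w a l t

/-- The distance from `s` to `t`: the smallest length of a walk. -/
noncomputable def dist {U : Type} (w : U × U → ℝ) (s t : U) : ℝ := ⨅ l : List U, walkLen w s l t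

lemma potential_le {U : Type} {w : U × U → ℝ} (π : U → ℝ) (h : ∀ u v, π v - π u ≤ w (u, v))
    (l : List U) : ∀ s t, π t - π s ≤ walkLen w s l t := by
  induction l with
  | nil => intro s t; exact h s t
  | cons a l ih =>
    intro s t
    have h1 := h s a
    have h2 := ih a t
    simp only [walkLen]
    linarith

lemma dist_eq {U : Type} {w : U × U → ℝ} (π : U → ℝ) (h : ∀ u v, π v - π u ≤ w (u, v)) {s t : U}
    (l : List U) (hl : walkLen w s l t = π t - π s) : dist w s t = walkLen w s l t := by
  have hb : BddBelow (Set.range fun l => walkLen w s l t) :=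
    ⟨π t - π s, by rintro _ ⟨l', rfl⟩; exact potential_le π h l' s t⟩
  refine le_antisymm (ciInf_le hb l) (le_ciInf fun l' => ?_)
  rw [hl]; exact potential_le π h l' s t

variable {X Y : Type}

/-- The arc of the complete digraph on `X ⊕ Y` for an entry of the two matrices. -/
def arc : Pos X Y X → (X ⊕ Y) × (X ⊕ Y)
  | .inl (s, k) => (.inl s, .inr k)
  | .inr (k, t) => (.inr k, .inl t)

/-- The weights of the complete digraph on `X ⊕ Y` for two matrices. -/
def ext (x : Pos X Y X → ℝ) : (X ⊕ Y) × (X ⊕ Y) → ℝ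
  | (.inl s, .inr k) => x (.inl (s, k)) + 3
  | (.inr k, .inl t) => x (.inr (k, t)) + 3
  | (.inl _, .inl _) => 14
  | (.inr _, .inr _) => 14

lemma ext_comb (x y : Pos X Y X → ℝ) {a b : ℝ} (hab : a + b = 1) :
    ext (a • x + b • y) = a • ext x + b • ext y := by
  funext e
  rcases e with ⟨s | k, t | l⟩
  · simp only [ext, Pi.add_apply, Pi.smul_apply, smul_eq_mul]; linear_combination -14 * hab
  · simp only [ext, Pi.add_apply, Pi.smul_apply, smul_eq_mul]; linear_combination -3 * hab
  · simp only [ext, Pi.add_apply, Pi.smul_apply, smul_eq_mul]; linear_combination -3 * hab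
  · simp only [ext, Pi.add_apply, Pi.smul_apply, smul_eq_mul]; linear_combination -14 * hab

/-- The weights in `[1, 14]`. -/
def box14 (U : Type) : Set (U × U → ℝ) := {w | ∀ e, 1 ≤ w e ∧ w e ≤ 14}

/-- The weights in `{1, ..., 14}`. -/
def Grid14 {U : Type} (w : U × U → ℝ) : Prop := ∀ e, ∃ n : ℕ, 1 ≤ n ∧ n ≤ 14 ∧ w e = n

lemma ext_mem {x : Pos X Y X → ℝ} (hx : x ∈ box (Pos X Y X)) : ext x ∈ box14 (X ⊕ Y) := by
  intro e
  rcases e with ⟨s | k, t | l⟩
  · simp only [ext]; norm_num
  · have := hx (.inl (s, l)); simp only [ext]; constructor <;> linarith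
  · have := hx (.inr (k, t)); simp only [ext]; constructor <;> linarith
  · simp only [ext]; norm_num

lemma ext_grid {x : Pos X Y X → ℝ} (hx : Grid x) : Grid14 (ext x) := by
  have key : ∀ v, ∃ n : ℕ, 1 ≤ n ∧ n ≤ 14 ∧ x v + 3 = n := by
    intro v
    rcases hx v with h | h | h | h
    · exact ⟨4, by norm_num, by norm_num, by rw [h]; norm_num⟩
    · exact ⟨5, by norm_num, by norm_num, by rw [h]; norm_num⟩
    · exact ⟨6, by norm_num, by norm_num, by rw [h]; norm_num⟩
    · exact ⟨7, by norm_num, by norm_num, by rw [h]; norm_num⟩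
  intro e
  rcases e with ⟨s | k, t | l⟩
  · exact ⟨14, by norm_num, by norm_num, by simp [ext]⟩
  · exact key _
  · exact key _
  · exact ⟨14, by norm_num, by norm_num, by simp [ext]⟩

lemma ext_arc (x y : Pos X Y X → ℝ) (e : (X ⊕ Y) × (X ⊕ Y))
    (h : ∀ v, arc v = e → x v = y v) : ext x e = ext y e := by
  rcases e with ⟨s | k, t | l⟩
  · rfl
  · simp only [ext]; rw [h (.inl (s, l)) rfl]
  · simp only [ext]; rw [h (.inr (k, t)) rfl]
  · rfl

variable [Fintype X] [Fintype Y] [DecidableEq X] [DecidableEq Y]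

lemma prod_attained [Nonempty Y] (x : Pos X Y X → ℝ) (o : X × X) :
    ∃ k, prod x o = term x o k ∧ ∀ k', prod x o ≤ term x o k' := by
  obtain ⟨k, _, hk⟩ := Finset.exists_min_image univ (term x o) (Finset.univ_nonempty (α := Y))
  have : prod x o = term x o k := prod_eq fun k' => hk k' (mem_univ _)
  exact ⟨k, this, fun k' => this ▸ hk k' (mem_univ _)⟩

/-- The distances in the complete digraph. -/
lemma dist_ext [Nonempty Y] {x : Pos X Y X → ℝ} (hx : x ∈ box (Pos X Y X)) {s t : X}
    (hst : s ≠ t) : dist (ext x) (.inl s) (.inl t) = prod x (s, t) + 6 := by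
  classical
  have hb : ∀ v, 1 ≤ x v ∧ x v ≤ 4 := hx
  let π : X ⊕ Y → ℝ := fun u => match u with
    | .inl m => if m = s then 0 else prod x (s, m) + 6
    | .inr k => x (.inl (s, k)) + 3
  have hprod : ∀ m, 2 ≤ prod x (s, m) ∧ prod x (s, m) ≤ 8 := by
    intro m
    obtain ⟨k, hk, _⟩ := prod_attained x (s, m)
    have h1 := hb (.inl (s, k))
    have h2 := hb (.inr (k, m))
    rw [hk]; simp only [term]
    constructor <;> linarith
  have hπ : ∀ u v, π v - π u ≤ ext x (u, v) := by
    intro u v
    rcases u with m | k <;> rcases v with m' | k'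
    · simp only [π, ext]
      have h1 := hprod m
      have h2 := hprod m'
      split_ifs <;> linarith
    · simp only [π, ext]
      have h1 := hprod m
      have h2 := hb (.inl (s, k'))
      have h3 := hb (.inl (m, k'))
      by_cases hm : m = s
      · rw [if_pos hm, hm]; linarith
      · rw [if_neg hm]; linarith
    · simp only [π, ext]
      have h1 := hprod m'
      have h2 := hb (.inl (s, k))
      have h3 := hb (.inr (k, m'))
      by_cases hm : m' = s
      · rw [if_pos hm]; linarith
      · rw [if_neg hm]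
        obtain ⟨_, _, h4⟩ := prod_attained x (s, m')
        have h5 := h4 k
        simp only [term] at h5
        linarith
    · simp only [π, ext]
      have h2 := hb (.inl (s, k))
      have h3 := hb (.inl (s, k'))
      linarith
  obtain ⟨k, hk, _⟩ := prod_attained x (s, t)
  have hlen : walkLen (ext x) (.inl s) [.inr k] (.inl t) = prod x (s, t) + 6 := by
    simp only [walkLen, ext]
    rw [hk]; simp only [term]; ring
  have hπst : π (.inl t) - π (.inl s) = prod x (s, t) + 6 := by
    simp only [π]; rw [if_neg hst.symm]; simp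
  rw [dist_eq π hπ [.inr k] (by rw [hlen, hπst]), hlen]

/-- The circuit for the matrices obtained from a circuit for the weights. -/
noncomputable def restrict (g : (t : ℕ) → Gate ((X ⊕ Y) × (X ⊕ Y)) t) (t : ℕ) :
    Gate (Pos X Y X) t :=
  match g t with
  | .free φ => .free (fun x => φ (ext x))
  | .comb c => .comb c
  | .low a b => .low a b

lemma val_restrict (g : (t : ℕ) → Gate ((X ⊕ Y) × (X ⊕ Y)) t) (x : Pos X Y X → ℝ) (t : ℕ) :
    val (restrict g) x t = val g (ext x) t := by
  induction t using Nat.strong_induction_on with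
  | _ t ih =>
    cases h : g t with
    | free φ =>
      rw [val_free h, val_free (g := restrict g) (t := t) (φ := fun x => φ (ext x))
        (by simp [restrict, h])]
    | comb c =>
      rw [val_comb h, val_comb (g := restrict g) (t := t) (c := c) (by simp [restrict, h])]
      exact Finset.sum_congr rfl fun s _ => by rw [ih s s.2]
    | low a b =>
      rw [val_low h, val_low (g := restrict g) (t := t) (a := a) (b := b) (by simp [restrict, h]),
        ih a a.2, ih b b.2]

/-- The sets of arcs which do not contain the four arcs of two paths `s → k → t`, `s → k' → t`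
(with `s ≠ t`, `k ≠ k'`). -/
def NoDiamond {U : Type} (S : Set (U × U)) : Prop :=
  ∀ s t k k' : U, s ≠ t → k ≠ k' →
    ¬ ((s, k) ∈ S ∧ (k, t) ∈ S ∧ (s, k') ∈ S ∧ (k', t) ∈ S)

lemma restrict_free {g : (t : ℕ) → Gate ((X ⊕ Y) × (X ⊕ Y)) t} {t : ℕ}
    {ψ : (Pos X Y X → ℝ) → ℝ} (h : restrict g t = .free ψ) :
    ∃ φ, g t = .free φ ∧ ψ = fun x => φ (ext x) := by
  cases hg : g t with
  | free φ =>
    refine ⟨φ, rfl, ?_⟩
    simp only [restrict, hg, Gate.free.injEq] at h
    exact h.symm
  | comb c => simp [restrict, hg] at h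
  | low a b => simp [restrict, hg] at h

lemma restrict_low (g : (t : ℕ) → Gate ((X ⊕ Y) × (X ⊕ Y)) t) (t : ℕ) :
    (restrict g t).IsLow ↔ (g t).IsLow := by
  cases hg : g t <;> simp [restrict, hg, Gate.IsLow]

open Classical in
theorem apsp_count (g : (t : ℕ) → Gate ((X ⊕ Y) × (X ⊕ Y)) t) (N : ℕ)
    (out : (X ⊕ Y) → (X ⊕ Y) → ℕ)
    (hcomb : ∀ (t : ℕ) (c : Fin t → ℝ), g t = .comb c → ∀ s, 0 ≤ c s)
    (hfree : ∀ (t : ℕ) (φ : ((X ⊕ Y) × (X ⊕ Y) → ℝ) → ℝ), g t = .free φ →
      ConcaveOn ℝ (box14 (X ⊕ Y)) φ ∧ ∃ S, NoDiamond S ∧ DependsOn φ S)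
    (hout : ∀ u v, out u v < N)
    (hcorrect : ∀ w : (X ⊕ Y) × (X ⊕ Y) → ℝ, Grid14 w →
      ∀ u v, u ≠ v → val g w (out u v) = dist w u v) :
    Fintype.card X * (Fintype.card X - 1) * (Fintype.card Y - 1) ≤
      ((range N).filter (fun t => (g t).IsLow)).card := by
  rcases isEmpty_or_nonempty Y with hY | hY
  · simp
  let P : Set (X × X) := {o | o.1 ≠ o.2}
  have hG : Good (restrict g) P (fun o => out (.inl o.1) (.inl o.2)) 6 := by
    refine ⟨?_, ?_, ?_⟩
    · intro t c hc s
      cases hg : g t with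
      | free φ => simp [restrict, hg] at hc
      | comb c' =>
        simp only [restrict, hg, Gate.comb.injEq] at hc
        rw [← hc]; exact hcomb t c' hg s
      | low a b => simp [restrict, hg] at hc
    · intro t ψ hψ
      obtain ⟨φ, hφ, rfl⟩ := restrict_free hψ
      have hconc := (hfree t φ hφ).1
      refine ⟨convex_box _, ?_⟩
      intro x hx y hy a b ha hb hab
      have := hconc.2 (ext_mem hx) (ext_mem hy) ha hb hab
      simp only
      rw [ext_comb x y hab]
      exact this
    · intro x hx o ho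
      rw [val_restrict, hcorrect (ext x) (ext_grid hx) _ _ (fun h => ho (Sum.inl.inj h)),
        dist_ext hx.mem ho]
  have hL : LocalFree P (restrict g) := by
    intro t ψ hψ
    obtain ⟨φ, hφ, rfl⟩ := restrict_free hψ
    obtain ⟨S, hS, hdep⟩ := (hfree t φ hφ).2
    refine ⟨{v | arc v ∈ S}, ?_, ?_⟩
    · rintro ⟨s, t'⟩ ho k k' hkk' ⟨h1, h2, h3, h4⟩
      exact hS (.inl s) (.inl t') (.inr k) (.inr k') (fun h => ho (Sum.inl.inj h))
        (fun h => hkk' (Sum.inr.inj h))
        ⟨h1, h2, h3, h4⟩
    · intro x y hxy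
      refine hdep fun e he => ?_
      refine ext_arc x y e fun v hv => hxy v ?_
      change arc v ∈ S
      rw [hv]; exact he
  have h := hG.count hL (univ.filter (fun o : X × X => o.1 ≠ o.2))
    (fun o ho => (Finset.mem_filter.mp ho).2) (N := N) (fun o _ => hout _ _)
  have hcard : (univ.filter (fun o : X × X => o.1 ≠ o.2)).card =
      Fintype.card X * (Fintype.card X - 1) := by
    have h1 : (univ.filter (fun o : X × X => o.1 ≠ o.2)) = (univ : Finset X).offDiag := by
      ext ⟨a, b⟩; simp [Finset.mem_offDiag]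
    rw [h1, Finset.offDiag_card, Finset.card_univ, Nat.mul_sub, Nat.mul_one]
  rw [hcard] at h
  refine h.trans (le_of_eq ?_)
  congr 1
  ext t
  simp only [Finset.mem_filter]
  rw [restrict_low]

end Pool.Agent.J4.H73.CP
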