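import Mathlib
import Pool.Agent.J4.H73.CP.Apsp

set_option autoImplicit false
set_option linter.unusedSectionVars false
set_option linter.style.haveILetI false

namespace Pool.Agent.J4.H73.CP

open Finset

section

variable {V : Type}

/-- The circuit which computes, in blocks of `2 n + 1` gates, the minima of `n + 1` functions. -/
noncomputable def chain (n : ℕ) (f : ℕ → ℕ → (V → ℝ) → ℝ) (t : ℕ) : Gate V t :=
  if h : t % (2 * n + 1) % 2 = 0 ∧ 0 < t % (2 * n + 1) then
    .low ⟨t - 2, by have := Nat.mod_le t (2 * n + 1); omega⟩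
      ⟨t - 1, by have := Nat.mod_le t (2 * n + 1); omega⟩
  else .free (f (t / (2 * n + 1)) ((t % (2 * n + 1) + 1) / 2))

lemma chain_free {n : ℕ} (f : ℕ → ℕ → (V → ℝ) → ℝ) (a r : ℕ) (x : V → ℝ)
    (hr : r < 2 * n + 1) (h : r % 2 = 1 ∨ r = 0) :
    val (chain n f) x ((2 * n + 1) * a + r) = f a ((r + 1) / 2) x := by
  have h1 : ((2 * n + 1) * a + r) % (2 * n + 1) = r := by
    rw [Nat.mul_add_mod]; exact Nat.mod_eq_of_lt hr
  have h2 : ((2 * n + 1) * a + r) / (2 * n + 1) = a := by
    rw [Nat.mul_add_div (by omega), Nat.div_eq_of_lt hr, add_zero]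
  have h3 : chain n f ((2 * n + 1) * a + r) = .free (f a ((r + 1) / 2)) := by
    unfold chain
    rw [dif_neg, h1, h2]
    rw [h1]; omega
  rw [val_free h3]

lemma chain_low {n : ℕ} (f : ℕ → ℕ → (V → ℝ) → ℝ) (a r : ℕ) (x : V → ℝ) (hr : r < n) :
    val (chain n f) x ((2 * n + 1) * a + 2 * (r + 1)) =
      min (val (chain n f) x ((2 * n + 1) * a + 2 * r)) (f a (r + 1) x) := by
  have h1 : ((2 * n + 1) * a + 2 * (r + 1)) % (2 * n + 1) = 2 * (r + 1) := by
    rw [Nat.mul_add_mod]; exact Nat.mod_eq_of_lt (by omega)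
  have h3 : chain n f ((2 * n + 1) * a + 2 * (r + 1)) =
      .low ⟨(2 * n + 1) * a + 2 * (r + 1) - 2, by omega⟩
        ⟨(2 * n + 1) * a + 2 * (r + 1) - 1, by omega⟩ := by
    unfold chain
    rw [dif_pos]
    rw [h1]; omega
  rw [val_low h3]
  have h4 : (2 * n + 1) * a + 2 * (r + 1) - 2 = (2 * n + 1) * a + 2 * r := by omega
  have h5 : (2 * n + 1) * a + 2 * (r + 1) - 1 = (2 * n + 1) * a + (2 * r + 1) := by omega
  simp only [h4, h5]
  rw [chain_free f a (2 * r + 1) x (by omega) (by omega)]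
  have h6 : (2 * r + 1 + 1) / 2 = r + 1 := by omega
  rw [h6]

lemma chain_val {n : ℕ} (f : ℕ → ℕ → (V → ℝ) → ℝ) (a r : ℕ) (x : V → ℝ) (hr : r ≤ n) :
    (∀ s ≤ r, val (chain n f) x ((2 * n + 1) * a + 2 * r) ≤ f a s x) ∧
      ∃ s ≤ r, val (chain n f) x ((2 * n + 1) * a + 2 * r) = f a s x := by
  induction r with
  | zero =>
    have := chain_free f a 0 x (by omega : 0 < 2 * n + 1) (Or.inr rfl)
    simp only [Nat.mul_zero, Nat.add_zero] at this ⊢
    rw [this]
    refine ⟨fun s hs => ?_, 0, le_rfl, rfl⟩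
    have : s = 0 := by omega
    subst this; exact le_rfl
  | succ r ih =>
    obtain ⟨h1, s0, hs0, h2⟩ := ih (by omega)
    rw [chain_low f a r x (by omega)]
    constructor
    · intro s hs
      by_cases h : s ≤ r
      · exact (min_le_left _ _).trans (h1 s h)
      · have : s = r + 1 := by omega
        rw [this]; exact min_le_right _ _
    · rcases min_choice (val (chain n f) x ((2 * n + 1) * a + 2 * r)) (f a (r + 1) x) with h | h
      · exact ⟨s0, by omega, h.trans h2⟩
      · exact ⟨r + 1, le_rfl, h⟩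

lemma chain_isLow {n : ℕ} (f : ℕ → ℕ → (V → ℝ) → ℝ) {t : ℕ} (h : (chain n f t).IsLow) :
    t % (2 * n + 1) % 2 = 0 ∧ 0 < t % (2 * n + 1) := by
  by_contra hcon
  unfold chain at h
  rw [dif_neg hcon] at h
  exact h

open Classical in
lemma chain_count {n q : ℕ} (f : ℕ → ℕ → (V → ℝ) → ℝ) :
    ((range ((2 * n + 1) * q)).filter (fun t => (chain n f t).IsLow)).card ≤ q * n := by
  have hsub : (range ((2 * n + 1) * q)).filter (fun t => (chain n f t).IsLow) ⊆
      ((range q) ×ˢ (range n)).image (fun p => (2 * n + 1) * p.1 + 2 * (p.2 + 1)) := by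
    intro t ht
    obtain ⟨h1, h2⟩ := Finset.mem_filter.mp ht
    have h3 := chain_isLow f h2
    have h4 := Finset.mem_range.mp h1
    have h5 : t % (2 * n + 1) < 2 * n + 1 := Nat.mod_lt _ (by omega)
    refine Finset.mem_image.mpr ⟨(t / (2 * n + 1), t % (2 * n + 1) / 2 - 1), ?_, ?_⟩
    · refine Finset.mem_product.mpr ⟨Finset.mem_range.mpr ?_, Finset.mem_range.mpr ?_⟩
      · exact Nat.div_lt_of_lt_mul h4
      · simp only; omega
    · simp only
      have h6 := Nat.div_add_mod t (2 * n + 1)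
      have h7 : 2 * (t % (2 * n + 1) / 2 - 1 + 1) = t % (2 * n + 1) := by omega
      rw [h7]; exact h6
  refine (Finset.card_le_card hsub).trans (Finset.card_image_le.trans ?_)
  rw [Finset.card_product, Finset.card_range, Finset.card_range]

end

variable {I K J : Type} [Fintype I] [Fintype K] [Fintype J]

open Classical in
/-- The obvious circuit: the free functions are the sums of two entries. -/
theorem exists_circuit [Nonempty I] [Nonempty K] [Nonempty J] :
    ∃ (g : (t : ℕ) → Gate (Pos I K J) t) (N : ℕ) (out : I × J → ℕ),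
      (∀ (t : ℕ) (c : Fin t → ℝ), g t ≠ .comb c) ∧
      (∀ (t : ℕ) (φ : (Pos I K J → ℝ) → ℝ), g t = .free φ →
        ∃ (o : I × J) (k : K), φ = fun x => term x o k) ∧
      (∀ o, out o < N) ∧ (∀ (x : Pos I K J → ℝ) (o : I × J), val g x (out o) = prod x o) ∧
      ((range N).filter (fun t => (g t).IsLow)).card ≤
        Fintype.card I * Fintype.card J * (Fintype.card K - 1) := by
  obtain ⟨o0⟩ : Nonempty (I × J) := inferInstance
  obtain ⟨k0⟩ : Nonempty K := inferInstance
  let q := Fintype.card (I × J)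
  let n := Fintype.card K - 1
  have hn : Fintype.card K = n + 1 := by
    have : 0 < Fintype.card K := Fintype.card_pos
    omega
  let eO : Fin q ≃ I × J := (Fintype.equivFin (I × J)).symm
  let eK : Fin (n + 1) ≃ K := (Fintype.equivFinOfCardEq hn).symm
  let fo : ℕ → I × J := fun a => if h : a < q then eO ⟨a, h⟩ else o0
  let fk : ℕ → K := fun r => if h : r < n + 1 then eK ⟨r, h⟩ else k0
  let f : ℕ → ℕ → (Pos I K J → ℝ) → ℝ := fun a r x => term x (fo a) (fk r)
  refine ⟨chain n f, (2 * n + 1) * q, fun o => (2 * n + 1) * (eO.symm o : ℕ) + 2 * n, ?_, ?_, ?_,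
    ?_, ?_⟩
  · intro t c h
    unfold chain at h
    split_ifs at h
  · intro t φ h
    unfold chain at h
    split_ifs at h
    simp only [Gate.free.injEq] at h
    exact ⟨_, _, h.symm⟩
  · intro o
    have h1 : (eO.symm o : ℕ) + 1 ≤ q := (eO.symm o).2
    calc (2 * n + 1) * (eO.symm o : ℕ) + 2 * n < (2 * n + 1) * ((eO.symm o : ℕ) + 1) := by
          rw [Nat.mul_add, Nat.mul_one]; omega
      _ ≤ (2 * n + 1) * q := Nat.mul_le_mul_left _ h1
  · intro x o
    obtain ⟨h1, s, hs, h2⟩ := chain_val f (eO.symm o : ℕ) n x le_rfl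
    have hfo : fo (eO.symm o : ℕ) = o := by
      simp only [fo]; rw [dif_pos (eO.symm o).2]; simp
    have h3 : ∀ k, val (chain n f) x ((2 * n + 1) * (eO.symm o : ℕ) + 2 * n) ≤ term x o k := by
      intro k
      have hk : (eK.symm k : ℕ) ≤ n := Nat.lt_succ_iff.mp (eK.symm k).2
      have h4 := h1 _ hk
      have hfk : fk (eK.symm k : ℕ) = k := by
        simp only [fk]; rw [dif_pos (eK.symm k).2]; simp
      simp only [f] at h4
      rw [hfo, hfk] at h4
      exact h4
    simp only [f] at h2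
    rw [hfo] at h2
    refine le_antisymm (le_ciInf h3) ?_
    change prod x o ≤ _
    have h5 : val (chain n f) x ((2 * n + 1) * (eO.symm o : ℕ) + 2 * n) = term x o (fk s) := h2
    rw [h5]
    exact ciInf_le (Set.finite_range _).bddBelow (fk s)
  · have := chain_count (n := n) (q := q) f
    have hq : q = Fintype.card I * Fintype.card J := Fintype.card_prod I J
    rw [← hq]; exact this

end Pool.Agent.J4.H73.CP
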